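import Pool.Agent.KS6_62.Unif.Key
import Pool.Agent.KS6_62.Unif.Blocks

/-!
# Transitive actions all of whose uniform multisets are quasi-polynomially large

There are faithful transitive actions of finite groups `G` on arbitrarily large finite sets `X` such
that every non-empty `X`-uniform multiset of elements of `G` has at least
`exp ((1/32) (log |X| / log log |X|)^(3/2))` elements.
-/

set_option autoImplicit false

namespace Pool.Agent.Results.MP_8e2408_co.QuasiPolynomial

open Finset Pool.Agent.H760R3.Unif Pool.Agent.KS6_62.Unif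

theorem log_primorial_large :
    ∀ᶠ n : ℕ in Filter.atTop, (n : ℝ) / 2 ≤ Real.log (primorial n) := by
  have h1 : ∀ᶠ x : ℝ in Filter.atTop, ‖Real.log x‖ ≤ (1 / 100) * ‖x ^ (1 / 2 : ℝ)‖ :=
    (isLittleO_log_rpow_atTop (by norm_num : (0 : ℝ) < 1 / 2)).bound (by norm_num)
  have h2 : ∀ᶠ n : ℕ in Filter.atTop, ‖Real.log (n : ℝ)‖ ≤ (1 / 100) * ‖(n : ℝ) ^ (1 / 2 : ℝ)‖ :=
    tendsto_natCast_atTop_atTop.eventually h1
  have h3 : ∀ᶠ n : ℕ in Filter.atTop,
      ‖Real.log ((n : ℝ) + 1)‖ ≤ (1 / 100) * ‖((n : ℝ) + 1) ^ (1 / 2 : ℝ)‖ :=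
    (Filter.tendsto_atTop_add_const_right _ 1 tendsto_natCast_atTop_atTop).eventually h1
  filter_upwards [h2, h3, Filter.eventually_ge_atTop 1] with n a b hn
  have hθ := Chebyshev.theta_ge n
  rw [Chebyshev.theta_eq_log_primorial, Nat.floor_natCast] at hθ
  have hn1 : (1 : ℝ) ≤ n := by exact_mod_cast hn
  have hs0 : 0 ≤ Real.sqrt n := Real.sqrt_nonneg _
  have hs : Real.sqrt n * Real.sqrt n = n := Real.mul_self_sqrt (by linarith)
  rw [← Real.sqrt_eq_rpow, Real.norm_of_nonneg hs0] at a
  have a' : Real.log n ≤ 1 / 100 * Real.sqrt n := le_trans (le_abs_self _) a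
  rw [← Real.sqrt_eq_rpow, Real.norm_of_nonneg (Real.sqrt_nonneg _)] at b
  have b' : Real.log ((n : ℝ) + 1) ≤ 1 / 100 * Real.sqrt ((n : ℝ) + 1) :=
    le_trans (le_abs_self _) b
  have b2 : Real.sqrt ((n : ℝ) + 1) ≤ n + 1 := by
    rw [Real.sqrt_le_left (by linarith)]
    nlinarith
  have hl2 := Real.log_two_gt_d9
  have c1 : Real.sqrt n * Real.log n ≤ 1 / 100 * n := by
    calc Real.sqrt n * Real.log n ≤ Real.sqrt n * (1 / 100 * Real.sqrt n) :=
          mul_le_mul_of_nonneg_left a' hs0
      _ = 1 / 100 * (Real.sqrt n * Real.sqrt n) := by ring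
      _ = 1 / 100 * n := by rw [hs]
  nlinarith

/-- the estimates -/
theorem estimate (l : ℕ) (hl : 3 ≤ l) (hM : ((2 ^ l : ℕ) : ℝ) / 2 ≤ Real.log (primorial (2 ^ l))) :
    (1 / 32) * (Real.log (((2 ^ l * (2 ^ l - 1)).factorial *
        primorial (2 ^ l) ^ (l * 2 ^ l) : ℕ) : ℝ) /
      Real.log (Real.log (((2 ^ l * (2 ^ l - 1)).factorial *
        primorial (2 ^ l) ^ (l * 2 ^ l) : ℕ) : ℝ))) ^ (3 / 2 : ℝ) ≤
      ((2 ^ l * (2 ^ l - 1) : ℕ) : ℝ) * Real.log (primorial (2 ^ l)) := by
  obtain ⟨n, hn⟩ : ∃ n, n = 2 ^ l := ⟨_, rfl⟩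
  rw [← hn] at hM ⊢
  have hn8 : 8 ≤ n := by
    rw [hn]
    calc 8 = 2 ^ 3 := by norm_num
      _ ≤ 2 ^ l := Nat.pow_le_pow_right (by norm_num) hl
  have hnR : (8 : ℝ) ≤ n := by exact_mod_cast hn8
  have hlR : (3 : ℝ) ≤ l := by exact_mod_cast hl
  have hMpos : 0 < primorial n := primorial_pos n
  have hMR : (0 : ℝ) < primorial n := by exact_mod_cast hMpos
  set lM := Real.log (primorial n) with hlM
  set A : ℕ := n * (n - 1) with hA
  set L := Real.log ((A.factorial * primorial n ^ (l * n) : ℕ) : ℝ) with hL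
  have hAR : (A : ℝ) = n * (n - 1) := by
    rw [hA, Nat.cast_mul, Nat.cast_sub (by omega)]
    simp
  have hApos : (0 : ℝ) < A := by rw [hAR]; nlinarith
  have hlog2 := Real.log_two_gt_d9
  have hlog2' := Real.log_two_lt_d9
  have hLeq : L = Real.log (A.factorial) + (l * n) * lM := by
    rw [hL, Nat.cast_mul, Real.log_mul (by positivity) (by positivity), Nat.cast_pow,
      Real.log_pow, Nat.cast_mul]
  have hlogn : Real.log n = l * Real.log 2 := by
    rw [hn, Nat.cast_pow, Real.log_pow]
    simp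
  have hlM4 : lM ≤ n * (2 * Real.log 2) := by
    have h1 : (primorial n : ℝ) ≤ 4 ^ n := by exact_mod_cast primorial_le_four_pow n
    calc lM ≤ Real.log (4 ^ n) := Real.log_le_log hMR h1
      _ = n * (2 * Real.log 2) := by
        rw [Real.log_pow, show (4 : ℝ) = 2 ^ 2 by norm_num, Real.log_pow]
        norm_num
  have hfac0 : 0 ≤ Real.log (A.factorial) := Real.log_natCast_nonneg _
  have hfac : Real.log (A.factorial) ≤ (n * n) * (2 * (l * Real.log 2)) := by
    have h1 : (A.factorial : ℝ) ≤ (A : ℝ) ^ A := by exact_mod_cast Nat.factorial_le_pow A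
    have h2 : Real.log A ≤ 2 * (l * Real.log 2) := by
      have h3 : (A : ℝ) ≤ n * n := by rw [hAR]; nlinarith
      calc Real.log A ≤ Real.log (n * n) := Real.log_le_log hApos h3
        _ = 2 * (l * Real.log 2) := by
          rw [Real.log_mul (by positivity) (by positivity), hlogn]; ring
    have h4 : 0 ≤ 2 * (l * Real.log 2) := by positivity
    calc Real.log (A.factorial) ≤ Real.log ((A : ℝ) ^ A) := Real.log_le_log (by positivity) h1
      _ = A * Real.log A := Real.log_pow _ _
      _ ≤ A * (2 * (l * Real.log 2)) := mul_le_mul_of_nonneg_left h2 hApos.le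
      _ ≤ (n * n) * (2 * (l * Real.log 2)) :=
        mul_le_mul_of_nonneg_right (by rw [hAR]; nlinarith) h4
  have hLup : L ≤ 3 * (l * (n * n)) := by
    have h1 : (l * n : ℝ) * lM ≤ (l * n) * (n * (2 * Real.log 2)) :=
      mul_le_mul_of_nonneg_left hlM4 (by positivity)
    have h2 : (0 : ℝ) < l * (n * n) := by positivity
    have h3 : L ≤ (l * (n * n)) * (4 * Real.log 2) := by
      rw [hLeq]
      calc Real.log (A.factorial) + (l * n) * lM
          ≤ (n * n) * (2 * (l * Real.log 2)) + (l * n) * (n * (2 * Real.log 2)) := by linarith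
        _ = (l * (n * n)) * (4 * Real.log 2) := by ring
    nlinarith
  have hLlow : (n : ℝ) * n ≤ L := by
    rw [hLeq]
    have h1 : (l * n : ℝ) * (n / 2) ≤ (l * n) * lM := mul_le_mul_of_nonneg_left hM (by positivity)
    have h2 : (n : ℝ) * n ≤ (l * n : ℝ) * (n / 2) := by
      have h3 : (0 : ℝ) < n * n := by positivity
      nlinarith
    linarith
  have hLpos : 0 < L := lt_of_lt_of_le (by positivity) hLlow
  have hlogL : (l : ℝ) ≤ Real.log L := by
    have h1 : Real.log (n * n) ≤ Real.log L := Real.log_le_log (by positivity) hLlow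
    rw [Real.log_mul (by positivity) (by positivity), hlogn] at h1
    nlinarith
  have hdiv : L / Real.log L ≤ (2 * n) ^ 2 := by
    rw [div_le_iff₀ (by linarith)]
    have h1 : 3 * (l * (n * n)) ≤ (2 * (n : ℝ)) ^ 2 * l := by
      have : (0 : ℝ) < l * (n * n) := by positivity
      nlinarith
    calc L ≤ 3 * (l * (n * n)) := hLup
      _ ≤ (2 * (n : ℝ)) ^ 2 * l := h1
      _ ≤ (2 * (n : ℝ)) ^ 2 * Real.log L := mul_le_mul_of_nonneg_left hlogL (by positivity)
  have hpow : (L / Real.log L) ^ (3 / 2 : ℝ) ≤ 8 * (n : ℝ) ^ 3 := by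
    calc (L / Real.log L) ^ (3 / 2 : ℝ) ≤ (((2 * (n : ℝ))) ^ 2) ^ (3 / 2 : ℝ) :=
          Real.rpow_le_rpow (div_nonneg hLpos.le (by linarith)) hdiv (by norm_num)
      _ = 8 * (n : ℝ) ^ 3 := by
        rw [← Real.rpow_natCast, ← Real.rpow_mul (by positivity)]
        norm_num
        ring
  have hfin : (n : ℝ) ^ 3 / 4 ≤ A * lM := by
    have h1 : (A : ℝ) * (n / 2) ≤ A * lM := mul_le_mul_of_nonneg_left hM hApos.le
    have h2 : (n : ℝ) ^ 3 / 4 ≤ A * (n / 2) := by
      rw [hAR]
      have h3 : (0 : ℝ) < n * n := by positivity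
      nlinarith
    linarith
  linarith

/-- The main construction. -/
theorem main (l : ℕ) (hl : 3 ≤ l)
    (hM : ((2 ^ l : ℕ) : ℝ) / 2 ≤ Real.log (primorial (2 ^ l))) :
    ∃ (G X : Type) (_ : Group G) (_ : Fintype G) (_ : Fintype X) (_ : DecidableEq X)
      (_ : MulAction G X), FaithfulSMul G X ∧ MulAction.IsPretransitive G X ∧
      l ≤ Fintype.card X ∧
      ∀ T : Multiset G, T ≠ 0 →
        (∀ x y : X, T.countP (fun g => g • x = y) * Fintype.card X = T.card) →
        (1 / 32) * (Real.log (Fintype.card X) / Real.log (Real.log (Fintype.card X))) ^ (3 / 2 : ℝ)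
          ≤ Real.log T.card := by
  classical
  set n : ℕ := 2 ^ l with hn
  set k : ℕ := (Nat.primesLE n).card with hk
  let p : Fin k → ℕ := fun i => ((Nat.primesLE n).equivFin.symm i : ℕ)
  have hpm : ∀ i, p i ∈ Nat.primesLE n := fun i => ((Nat.primesLE n).equivFin.symm i).2
  haveI hpr : ∀ i, Fact (p i).Prime := fun i => ⟨Nat.prime_of_mem_primesLE (hpm i)⟩
  have hpinj : Function.Injective p := by
    intro i j hij
    exact (Nat.primesLE n).equivFin.symm.injective (Subtype.ext hij)
  have hprod : ∏ i, p i = primorial n := by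
    rw [primorial_eq_prod_primesLE, ← Finset.prod_coe_sort (Nat.primesLE n) (fun x => x)]
    exact Equiv.prod_comp (Nat.primesLE n).equivFin.symm (fun x : Nat.primesLE n => (x : ℕ))
  let κ : BI l n → BJ l n := bk l n
  have hn1 : 0 < n := by rw [hn]; positivity
  have hκ : Function.Surjective κ := by
    rintro ⟨j, a⟩
    exact ⟨⟨j, (a, ⟨0, by positivity⟩)⟩, rfl⟩
  letI iact : MulAction (Gp k p (BI l n)) (Pt k p (BI l n) (BJ l n)) := act κ
  letI iG : Fintype (Gp k p (BI l n)) := Fintype.ofEquiv _ gpEquiv.symm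
  letI iX : Fintype (Pt k p (BI l n) (BJ l n)) := Fintype.ofEquiv _ ptEquiv.symm
  have hcardX : Fintype.card (Pt k p (BI l n) (BJ l n))
      = (n * (n - 1)).factorial * primorial n ^ (l * n) := by
    rw [Fintype.card_congr ptEquiv, Fintype.card_prod, Fintype.card_perm]
    congr 1
    · rw [card_BI, ← hn]
    · rw [Fintype.card_pi]
      simp only [Fintype.card_fun, ZMod.card]
      rw [Finset.prod_pow, hprod, card_BJ]
  have hcardI : Fintype.card (BI l n) = n * (n - 1) := by rw [card_BI, ← hn]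
  have hcol : ∀ (i : Fin k) (v : BI l n → ZMod (p i)),
      ∃ (ρ : Equiv.Perm (BI l n)) (u : BJ l n → ZMod (p i)), ∀ x, v (ρ x) = u (κ x) := by
    intro i v
    apply exists_perm l n _ v
    rw [ZMod.card]
    exact Nat.le_of_mem_primesLE (hpm i)
  refine ⟨Gp k p (BI l n), Pt k p (BI l n) (BJ l n), inferInstance, iG, iX,
    Classical.decEq _, iact, ?_, act_trans κ hκ, ?_, ?_⟩
  · -- faithful: the block of size one
    refine faithful κ ⟨⟨0, by omega⟩, (⟨0, hn1⟩, ⟨0, by norm_num⟩)⟩ ?_
    rintro ⟨j, a, b⟩ h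
    have h1 : j = ⟨0, by omega⟩ := congrArg Prod.fst h
    have h2 : a = ⟨0, hn1⟩ := congrArg Prod.snd h
    subst h1 h2
    have h3 : b = ⟨0, by norm_num⟩ := by
      apply Fin.ext
      have := b.2
      simp only [pow_zero] at this
      show (b : ℕ) = 0
      omega
    rw [h3]
  · rw [hcardX]
    have h1 : l < n := by rw [hn]; exact Nat.lt_two_pow_self
    have h2 : n * (n - 1) ≤ (n * (n - 1)).factorial := Nat.self_le_factorial _
    have h3 : n ≤ n * (n - 1) := Nat.le_mul_of_pos_right _ (by omega)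
    have h4 : 0 < primorial n ^ (l * n) := pow_pos (primorial_pos n) _
    calc l ≤ (n * (n - 1)).factorial := by omega
      _ ≤ _ := Nat.le_mul_of_pos_right _ h4
  · intro T hT0 hT
    have hcard : Fintype.card T.ToType = T.card := by simp
    have hlow := card_lower hpinj κ hcol (Finset.univ : Finset T.ToType)
      (fun g => (g : Gp k p (BI l n)))
      (Fintype.card (Pt k p (BI l n) (BJ l n)))
      (by rw [hcardX]; exact Nat.mul_pos (Nat.factorial_pos _) (pow_pos (primorial_pos n) _))
      (by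
        rw [← Finset.card_pos, Finset.card_univ, hcard]
        exact Multiset.card_pos.2 hT0)
      (by
        intro x y inst
        have h1 := hT x y
        have h2 : T.countP (fun g => g • x = y) = (univ.filter
            (fun g : T.ToType => (act κ).smul (g : Gp k p (BI l n)) x = y)).card := by
          conv_lhs => rw [← Multiset.map_univ_coe T]
          rw [Multiset.countP_map, Finset.card_def, Finset.filter_val]
          congr!
        rw [Finset.card_univ, hcard, ← h1, h2])
    rw [Finset.card_univ, hcard, hprod, hcardI] at hlow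
    have hest := estimate l hl hM
    rw [hcardX]
    refine le_trans hest ?_
    rw [← Real.log_pow]
    apply Real.log_le_log
    · have := primorial_pos n
      positivity
    · exact_mod_cast hlow

theorem arith (c : ℝ) : ∀ᶠ N : ℕ in Filter.atTop,
    c * Real.log N < (1 / 32) * (Real.log N / Real.log (Real.log N)) ^ (3 / 2 : ℝ) := by
  have h0 : ∀ᶠ L : ℝ in Filter.atTop, c * L < (1 / 32) * (L / Real.log L) ^ (3 / 2 : ℝ) := by
    have h1 : ∀ᶠ L : ℝ in Filter.atTop, ‖Real.log L‖ ≤ 1 * ‖L ^ (1 / 6 : ℝ)‖ :=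
      (isLittleO_log_rpow_atTop (by norm_num : (0 : ℝ) < 1 / 6)).bound (by norm_num)
    have h2 : ∀ᶠ L : ℝ in Filter.atTop, 32 * c < L ^ (1 / 4 : ℝ) :=
      (tendsto_rpow_atTop (by norm_num : (0 : ℝ) < 1 / 4)).eventually_gt_atTop _
    filter_upwards [h1, h2, Filter.eventually_ge_atTop (3 : ℝ)] with L a b h3
    have hL0 : 0 < L := by linarith
    have hlog : 0 < Real.log L := Real.log_pos (by linarith)
    rw [one_mul, Real.norm_of_nonneg hlog.le, Real.norm_of_nonneg (by positivity)] at a
    have e1 : L ^ (5 / 6 : ℝ) ≤ L / Real.log L := by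
      rw [le_div_iff₀ hlog]
      calc L ^ (5 / 6 : ℝ) * Real.log L ≤ L ^ (5 / 6 : ℝ) * L ^ (1 / 6 : ℝ) :=
            mul_le_mul_of_nonneg_left a (by positivity)
        _ = L := by
          rw [← Real.rpow_add hL0]
          norm_num
    have e2 : L * L ^ (1 / 4 : ℝ) ≤ (L / Real.log L) ^ (3 / 2 : ℝ) := by
      calc L * L ^ (1 / 4 : ℝ) = (L ^ (5 / 6 : ℝ)) ^ (3 / 2 : ℝ) := by
            rw [← Real.rpow_mul hL0.le]
            nth_rewrite 1 [← Real.rpow_one L]
            rw [← Real.rpow_add hL0]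
            norm_num
        _ ≤ _ := Real.rpow_le_rpow (by positivity) e1 (by norm_num)
    have e3 : L * (32 * c) < L * L ^ (1 / 4 : ℝ) := mul_lt_mul_of_pos_left b hL0
    linarith
  exact (Real.tendsto_log_atTop.comp tendsto_natCast_atTop_atTop).eventually h0

/-- **Theorem.** (1) There are faithful transitive actions of finite groups `G` on arbitrarily large
finite sets `X` such that every non-empty multiset `T` of elements of `G` which is `X`-uniform (for
all `x, y`, exactly `|T| / |X|` of its members, counted with multiplicity, send `x` to `y`)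
satisfies `log |T| ≥ (1/32) (log |X| / log log |X|)^(3/2)`.
(2) Hence for no constant `c` does every transitive action on `X` have an `X`-uniform subset with at
most `|X|^c` elements. -/
theorem result :
    (∀ N : ℕ, ∃ (G X : Type) (_ : Group G) (_ : Fintype G) (_ : Fintype X) (_ : DecidableEq X)
      (_ : MulAction G X), FaithfulSMul G X ∧ MulAction.IsPretransitive G X ∧
      N ≤ Fintype.card X ∧
      ∀ T : Multiset G, T ≠ 0 →
        (∀ x y : X, T.countP (fun g => g • x = y) * Fintype.card X = T.card) →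
        (1 / 32) * (Real.log (Fintype.card X) / Real.log (Real.log (Fintype.card X))) ^ (3 / 2 : ℝ)
          ≤ Real.log T.card) ∧
    ¬ (∃ c : ℝ, 0 < c ∧
      ∀ (G : Type) (X : Type) [Group G] [Fintype G] [MulAction G X] [Fintype X]
        [DecidableEq X] [Nonempty X],
        MulAction.IsPretransitive G X →
          ∃ T : Finset G, T.Nonempty ∧
            (∀ x y : X, (T.filter (fun g => g • x = y)).card * Fintype.card X = T.card) ∧
            (T.card : ℝ) ≤ (Fintype.card X : ℝ) ^ c) := by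
  have h1 : ∀ N : ℕ, ∃ (G X : Type) (_ : Group G) (_ : Fintype G) (_ : Fintype X)
      (_ : DecidableEq X)
      (_ : MulAction G X), FaithfulSMul G X ∧ MulAction.IsPretransitive G X ∧
      N ≤ Fintype.card X ∧
      ∀ T : Multiset G, T ≠ 0 →
        (∀ x y : X, T.countP (fun g => g • x = y) * Fintype.card X = T.card) →
        (1 / 32) * (Real.log (Fintype.card X) / Real.log (Real.log (Fintype.card X))) ^ (3 / 2 : ℝ)
          ≤ Real.log T.card := by
    intro N
    have hev : ∀ᶠ l : ℕ in Filter.atTop,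
        ((2 ^ l : ℕ) : ℝ) / 2 ≤ Real.log (primorial (2 ^ l)) :=
      (tendsto_pow_atTop_atTop_of_one_lt (by norm_num : (1 : ℕ) < 2)).eventually log_primorial_large
    obtain ⟨l, h1, h2, h3⟩ := (hev.and ((Filter.eventually_ge_atTop 3).and
      (Filter.eventually_ge_atTop N))).exists
    obtain ⟨G, X, i1, i2, i3, i4, i5, h4, h5, h6, h7⟩ := main l h2 h1
    exact ⟨G, X, i1, i2, i3, i4, i5, h4, h5, le_trans h3 h6, h7⟩
  refine ⟨h1, ?_⟩
  rintro ⟨c, hc, h⟩
  obtain ⟨N, hN⟩ := Filter.eventually_atTop.1 (arith c)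
  obtain ⟨G, X, i1, i2, i3, i4, i5, -, h5, h6, h7⟩ := h1 (max N 1)
  have hX1 : 1 ≤ Fintype.card X := le_trans (le_max_right _ _) h6
  haveI : Nonempty X := Fintype.card_pos_iff.1 hX1
  obtain ⟨T, hne, hT, hle⟩ := h G X h5
  have h8 := h7 T.val (by
      intro h0
      rw [Finset.val_eq_zero] at h0
      exact hne.ne_empty h0)
    (by
      intro x y
      rw [Multiset.countP_eq_card_filter]
      have := hT x y
      rwa [Finset.card_def, Finset.filter_val, Finset.card_def] at this)
  have h9 := hN (Fintype.card X) (le_trans (le_max_left _ _) h6)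
  have h10 : Real.log (T.val.card : ℝ) ≤ c * Real.log (Fintype.card X) := by
    have hT1 : 0 < T.card := hne.card_pos
    rw [← Real.log_rpow (by exact_mod_cast hX1)]
    apply Real.log_le_log
    · exact_mod_cast hT1
    · exact hle
  linarith

end Pool.Agent.Results.MP_8e2408_co.QuasiPolynomial
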